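import Pool.Agent.Helper9.NX2.DlTotalAux
import Pool.Agent.Helper72.NX2.DlA
import Pool.Agent.Helper60.NX2.DlB

/-!
# Project NX2, module A29: degree lowering, iteration
-/

set_option autoImplicit false

open Finset
open scoped BigOperators ComplexConjugate

namespace Pool.Agent.Helper67.NX2

open Pool.Agent.Helper57.NX

noncomputable section

theorem dl_total' (r : ℕ) (Γ : ℕ → ℕ → ℕ) (n : ℕ) : ∃ n4 : ℕ,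
    ∀ (p : ℕ) [NeZero p] (κ ι : Type) [Fintype κ] [Nonempty κ] (Ω : Finset ι)
      (F : ι → κ → ZMod p → ℂ) (u : κ → ZMod p → ℂ) (δ : ℝ) (X : ℕ), p.Prime → Ω.Nonempty →
      (∀ n i x, ‖F n i x‖ ≤ 1) → (∀ i x, u i x = conj (𝔼 n ∈ Ω, F n i x)) →
      0 < δ → δ ≤ 1 / 2 → δ⁻¹ ^ n4 ≤ (X : ℝ) → (X : ℝ) ≤ δ ^ n4 * p →
      δ ^ n ≤ 𝔼 i, Box r X (u i) →
      (∀ nq ≤ n4, ∀ q : ℕ, 1 ≤ q → (q : ℝ) ≤ δ⁻¹ ^ nq → ∀ k ≤ r, ∀ n2 ≤ n4, ∀ X2 X' : ℕ,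
        δ ^ n4 * X ≤ X2 → X2 ≤ X → 1 ≤ X' → X' ≤ X2 →
        LPhM Ω (fun n i z => F n i ((q : ZMod p) * z)) k X' X2 (δ⁻¹ ^ (Γ nq n2))
          (δ⁻¹ ^ (Γ nq n2) / X2) (δ ^ n2)) →
      ∃ q : ℕ, 1 ≤ q ∧ (q : ℝ) ≤ δ⁻¹ ^ n4 ∧ ∀ L : ℕ, 1 ≤ L → (L : ℝ) ≤ δ ^ n4 * X →
        δ ^ n4 ≤ 𝔼 i, nrm (A L (fun z => u i ((q : ZMod p) * z))) :=
  h9_dl_total (fun k hk => h9_low_of k (dl_A' k hk) (dl_B' k hk)) r Γ n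

end

end Pool.Agent.Helper67.NX2
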