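import Pool.Agent.Helper9.NX2.DlTotalTwo

/-!
# Project NX2, module A29 (part 3): iteration of the degree lowering
-/

set_option autoImplicit false

open Finset
open scoped BigOperators ComplexConjugate

namespace Pool.Agent.Helper67.NX2

open Pool.Agent.Helper57.NX

noncomputable section

/-- the statement of `dl_A'` for a fixed `k` -/
def H9A (k : ℕ) : Prop := ∀ n : ℕ, ∃ n2 : ℕ, ∀ n1 : ℕ, ∃ n3 : ℕ,
    ∀ (p : ℕ) [NeZero p] (κ ι : Type) [Fintype κ] [Nonempty κ] (Ω : Finset ι)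
      (F : ι → κ → ZMod p → ℂ) (u : κ → ZMod p → ℂ) (δ : ℝ) (X X' : ℕ), Ω.Nonempty →
      (∀ n i x, ‖F n i x‖ ≤ 1) → (∀ i x, u i x = conj (𝔼 n ∈ Ω, F n i x)) →
      0 < δ → δ ≤ 1 / 2 → 1 ≤ X → (X : ℝ) ≤ δ ^ n3 * p →
      δ ^ n ≤ 𝔼 i, Box (k + 2) X (u i) → 1 ≤ X' → (X' : ℝ) ≤ δ ^ n3 * X →
      LPhM Ω F k X' X (δ⁻¹ ^ n1) (δ⁻¹ ^ n1 / X) (δ ^ n2) →
      ∃ (r : ZMod p) (θ : κ → (Fin k → ℕ) → (Fin k → ℕ) → ℕ → ℝ) (a' : κ → ℕ → Fin k → ℕ),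
        (∀ i j, a' i j ∈ boxset k X') ∧
        δ ^ n2 ≤ 𝔼 i, 𝔼 j ∈ range (p / X), 𝔼 a ∈ boxset k X', 𝔼 b ∈ boxset k X',
          (open scoped Classical in
          if (∃ q : ℕ, 1 ≤ q ∧ (q : ℝ) ≤ δ⁻¹ ^ n1 ∧
              dint (q * (θ i a b j - psiSum (θ i) (a' i j) a b j)) ≤ δ⁻¹ ^ n1 / X) then
            ‖𝔼 t ∈ range X, cube (u i) a b (r + ((j * X + t : ℕ) : ZMod p)) *
              e (-(θ i a b j * t))‖
          else 0)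

/-- the statement of `dl_B'` for a fixed `k` -/
def H9B (k : ℕ) : Prop := ∀ n n1 : ℕ, ∃ n3 : ℕ,
    ∀ (p : ℕ) [NeZero p] (κ : Type) [Fintype κ] [Nonempty κ] (u : κ → ZMod p → ℂ) (δ : ℝ)
      (X X' : ℕ), p.Prime → (∀ i x, ‖u i x‖ ≤ 1) → 0 < δ → δ ≤ 1 / 2 → 1 ≤ X →
      (X : ℝ) ≤ δ ^ n3 * p → 1 ≤ X' → (X' : ℝ) ≤ δ ^ n3 * X →
      ∀ (r : ZMod p) (θ : κ → (Fin k → ℕ) → (Fin k → ℕ) → ℕ → ℝ) (a' : κ → ℕ → Fin k → ℕ),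
        (∀ i j, a' i j ∈ boxset k X') →
        δ ^ n ≤ 𝔼 i, 𝔼 j ∈ range (p / X), 𝔼 a ∈ boxset k X', 𝔼 b ∈ boxset k X',
          (open scoped Classical in
          if (∃ q : ℕ, 1 ≤ q ∧ (q : ℝ) ≤ δ⁻¹ ^ n1 ∧
              dint (q * (θ i a b j - psiSum (θ i) (a' i j) a b j)) ≤ δ⁻¹ ^ n1 / X) then
            ‖𝔼 t ∈ range X, cube (u i) a b (r + ((j * X + t : ℕ) : ZMod p)) *
              e (-(θ i a b j * t))‖
          else 0) →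
        ∃ q : ℕ, 1 ≤ q ∧ (q : ℝ) ≤ δ⁻¹ ^ n1 ∧ ∀ X'' : ℕ, 1 ≤ X'' → (X'' : ℝ) ≤ δ ^ n3 * X' →
          δ ^ n3 ≤ 𝔼 i, Box (k + 1) X'' (fun z => u i ((q : ZMod p) * z))

/-- one complete degree lowering step -/
def H9Low (k : ℕ) : Prop := ∀ n : ℕ, ∃ n2 : ℕ, ∀ n1 : ℕ, ∃ n3 : ℕ,
    ∀ (p : ℕ) [NeZero p] (κ ι : Type) [Fintype κ] [Nonempty κ] (Ω : Finset ι)
      (F : ι → κ → ZMod p → ℂ) (u : κ → ZMod p → ℂ) (δ : ℝ) (X X' X'' : ℕ), p.Prime → Ω.Nonempty →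
      (∀ n i x, ‖F n i x‖ ≤ 1) → (∀ i x, u i x = conj (𝔼 n ∈ Ω, F n i x)) →
      0 < δ → δ ≤ 1 / 2 → 1 ≤ X → (X : ℝ) ≤ δ ^ n3 * p →
      δ ^ n ≤ 𝔼 i, Box (k + 2) X (u i) → 1 ≤ X' → (X' : ℝ) ≤ δ ^ n3 * X →
      1 ≤ X'' → (X'' : ℝ) ≤ δ ^ n3 * X' →
      LPhM Ω F k X' X (δ⁻¹ ^ n1) (δ⁻¹ ^ n1 / X) (δ ^ n2) →
      ∃ q : ℕ, 1 ≤ q ∧ (q : ℝ) ≤ δ⁻¹ ^ n1 ∧
        δ ^ n3 ≤ 𝔼 i, Box (k + 1) X'' (fun z => u i ((q : ZMod p) * z))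

theorem h9_low_of (k : ℕ) (hA : H9A k) (hB : H9B k) : H9Low k := by
  intro n
  obtain ⟨n2, h2⟩ := hA n
  refine ⟨n2, ?_⟩
  intro n1
  obtain ⟨n3, h3⟩ := h2 n1
  obtain ⟨n5, h5⟩ := hB n2 n1
  refine ⟨max n3 n5, ?_⟩
  intro p _ κ ι _ _ Ω F u δ X X' X'' hp hΩ hF hu hδ0 hδ1 hX1 hXp hbox hX'1 hX' hX''1 hX'' hLP
  have hX0 : (0 : ℝ) ≤ X := Nat.cast_nonneg X
  have hX'0 : (0 : ℝ) ≤ X' := Nat.cast_nonneg X'
  have hp0 : (0 : ℝ) ≤ p := Nat.cast_nonneg p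
  obtain ⟨r, θ, a', ha', hlow⟩ := h3 p κ ι Ω F u δ X X' hΩ hF hu hδ0 hδ1 hX1
    (le_trans hXp (mul_le_mul_of_nonneg_right (h72_pow_anti hδ0 hδ1 (le_max_left _ _)) hp0)) hbox
    hX'1 (le_trans hX' (mul_le_mul_of_nonneg_right (h72_pow_anti hδ0 hδ1 (le_max_left _ _)) hX0))
    hLP
  obtain ⟨q, hq1, hq2, hq3⟩ := h5 p κ u δ X X' hp (h9_norm_u hF hu) hδ0 hδ1 hX1
    (le_trans hXp (mul_le_mul_of_nonneg_right (h72_pow_anti hδ0 hδ1 (le_max_right _ _)) hp0))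
    hX'1 (le_trans hX' (mul_le_mul_of_nonneg_right (h72_pow_anti hδ0 hδ1 (le_max_right _ _)) hX0))
    r θ a' ha' hlow
  refine ⟨q, hq1, hq2, ?_⟩
  exact le_trans (h72_pow_anti hδ0 hδ1 (le_max_right _ _)) (hq3 X'' hX''1
    (le_trans hX'' (mul_le_mul_of_nonneg_right (h72_pow_anti hδ0 hδ1 (le_max_right _ _)) hX'0)))

theorem h9_floor {δ : ℝ} (hδ0 : 0 < δ) (hδ1 : δ ≤ 1 / 2) (m : ℕ) (x : ℝ) (h1 : 1 ≤ δ ^ m * x) :
    1 ≤ ⌊δ ^ m * x⌋₊ ∧ (⌊δ ^ m * x⌋₊ : ℝ) ≤ δ ^ m * x ∧ δ ^ (m + 1) * x ≤ (⌊δ ^ m * x⌋₊ : ℝ) := by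
  have h0 : 0 ≤ δ ^ m * x := by linarith
  have hf1 : 1 ≤ ⌊δ ^ m * x⌋₊ := (Nat.one_le_floor_iff _).mpr h1
  refine ⟨hf1, Nat.floor_le h0, ?_⟩
  have h2 : δ ^ m * x < ⌊δ ^ m * x⌋₊ + 1 := Nat.lt_floor_add_one _
  have h3 : (1 : ℝ) ≤ ⌊δ ^ m * x⌋₊ := by exact_mod_cast hf1
  have h4 : δ ^ (m + 1) * x ≤ (δ ^ m * x) / 2 := by
    have h5 : δ ^ (m + 1) * x = (δ ^ m * x) * δ := by ring
    rw [h5]
    nlinarith
  linarith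

theorem h9_total (hL : ∀ k, 1 ≤ k → H9Low k) (r : ℕ) : ∀ (Γ : ℕ → ℕ → ℕ) (n : ℕ), ∃ n4 : ℕ,
    ∀ (p : ℕ) [NeZero p] (κ ι : Type) [Fintype κ] [Nonempty κ] (Ω : Finset ι)
      (F : ι → κ → ZMod p → ℂ) (u : κ → ZMod p → ℂ) (δ : ℝ) (X : ℕ), p.Prime → Ω.Nonempty →
      (∀ n i x, ‖F n i x‖ ≤ 1) → (∀ i x, u i x = conj (𝔼 n ∈ Ω, F n i x)) →
      0 < δ → δ ≤ 1 / 2 → δ⁻¹ ^ n4 ≤ (X : ℝ) → (X : ℝ) ≤ δ ^ n4 * p →
      δ ^ n ≤ 𝔼 i, Box (r + 2) X (u i) →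
      (∀ nq ≤ n4, ∀ q : ℕ, 1 ≤ q → (q : ℝ) ≤ δ⁻¹ ^ nq → ∀ k ≤ r, ∀ n2 ≤ n4, ∀ X2 X' : ℕ,
        δ ^ n4 * X ≤ X2 → X2 ≤ X → 1 ≤ X' → X' ≤ X2 →
        LPhM Ω (fun n i z => F n i ((q : ZMod p) * z)) k X' X2 (δ⁻¹ ^ (Γ nq n2))
          (δ⁻¹ ^ (Γ nq n2) / X2) (δ ^ n2)) →
      ∃ q : ℕ, 1 ≤ q ∧ (q : ℝ) ≤ δ⁻¹ ^ n4 ∧ ∀ L : ℕ, 1 ≤ L → (L : ℝ) ≤ δ ^ n4 * X →
        δ ^ n4 ≤ 𝔼 i, nrm (A L (fun z => u i ((q : ZMod p) * z))) := by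
  induction r with
  | zero =>
    intro Γ n
    set n1 := Γ 0 (n + 4) with hn1
    refine ⟨n + 8 + 2 * n1, ?_⟩
    intro p _ κ ι _ _ Ω F u δ X hp hΩ hF hu hδ0 hδ1 hXlow hXp hB hLP
    have hp0 : (0 : ℝ) ≤ p := Nat.cast_nonneg p
    have hX1R : (1 : ℝ) ≤ X := by
      refine le_trans ?_ hXlow
      exact one_le_pow₀ (by
        rw [le_inv_comm₀ (by norm_num) hδ0]
        linarith)
    have hX1 : 1 ≤ X := by exact_mod_cast hX1R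
    have hLP1 := hLP 0 (by omega) 1 le_rfl (by simp) 0 le_rfl (n + 4) (by omega) X 1 (by
      have : δ ^ (n + 8 + 2 * n1) ≤ 1 := pow_le_one₀ hδ0.le (by linarith)
      nlinarith) le_rfl le_rfl hX1
    have hF1 : (fun n i z => F n i (((1 : ℕ) : ZMod p) * z)) = F := by
      funext n i z
      rw [Nat.cast_one, one_mul]
    rw [hF1] at hLP1
    obtain ⟨q, hq1, hq2, hq3⟩ := h9_two n n1 p κ ι Ω F u δ X hp hF hu hδ0 hδ1 hX1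
      (le_trans hXp (mul_le_mul_of_nonneg_right (h72_pow_anti hδ0 hδ1 (by omega)) hp0)) hB hLP1
    exact ⟨q, hq1, le_trans hq2 (h72_ipow_mono hδ0 hδ1 (by omega)), hq3⟩
  | succ r ih =>
    intro Γ n
    obtain ⟨n2, h2⟩ := hL (r + 1) (by omega) n
    set n1 := Γ 0 n2 with hn1
    obtain ⟨n3, hlow⟩ := h2 n1
    obtain ⟨n5, hn5⟩ := ih (fun nq m2 => Γ (nq + n1) m2) n3
    refine ⟨n5 + 2 * n3 + 2 + n1 + n2, ?_⟩
    set n4 := n5 + 2 * n3 + 2 + n1 + n2 with hn4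
    intro p _ κ ι _ _ Ω F u δ X hp hΩ hF hu hδ0 hδ1 hXlow hXp hB hLP
    have hX0 : (0 : ℝ) ≤ X := Nat.cast_nonneg X
    have hp0 : (0 : ℝ) ≤ p := Nat.cast_nonneg p
    have hle1 : ∀ a : ℕ, δ ^ a ≤ 1 := fun a => pow_le_one₀ hδ0.le (by linarith)
    have hpos : ∀ a : ℕ, 0 < δ ^ a := fun a => pow_pos hδ0 a
    have hδinv : 1 ≤ δ⁻¹ := by
      rw [le_inv_comm₀ (by norm_num) hδ0]
      linarith
    have hX1R : (1 : ℝ) ≤ X := le_trans (one_le_pow₀ hδinv) hXlow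
    have hX1 : 1 ≤ X := by exact_mod_cast hX1R
    -- `δ^m X ≥ δ⁻¹^(n4-m)`
    have hXm : ∀ m a, m + a ≤ n4 → δ⁻¹ ^ a ≤ δ ^ m * X := by
      intro m a hma
      have h1 : δ⁻¹ ^ (m + a) ≤ X := le_trans (h72_ipow_mono hδ0 hδ1 hma) hXlow
      have h3 := mul_le_mul_of_nonneg_left h1 (hpos m).le
      rw [pow_add, ← mul_assoc, ← mul_pow, mul_inv_cancel₀ hδ0.ne', one_pow, one_mul] at h3
      exact h3
    obtain ⟨hX'1, hX'le, hX'ge⟩ := h9_floor hδ0 hδ1 n3 X (by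
      have := hXm n3 0 (by omega)
      rwa [pow_zero] at this)
    set X' : ℕ := ⌊δ ^ n3 * (X : ℝ)⌋₊ with hX'
    have hX'ge2 : δ ^ (n3 + (n3 + 1)) * X ≤ δ ^ n3 * X' := by
      rw [pow_add, mul_assoc]
      exact mul_le_mul_of_nonneg_left hX'ge (hpos n3).le
    obtain ⟨hX''1, hX''le, hX''ge⟩ := h9_floor hδ0 hδ1 n3 X' (by
      have := hXm (n3 + (n3 + 1)) 0 (by omega)
      rw [pow_zero] at this
      linarith)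
    set X'' : ℕ := ⌊δ ^ n3 * (X' : ℝ)⌋₊ with hX''
    have hX''ge2 : δ ^ (2 * n3 + 2) * X ≤ X'' := by
      have h3 : 2 * n3 + 2 = (n3 + 1) + (n3 + 1) := by omega
      rw [h3, pow_add, mul_assoc]
      exact le_trans (mul_le_mul_of_nonneg_left hX'ge (hpos (n3 + 1)).le) hX''ge
    have hX'X : X' ≤ X := by
      have : (X' : ℝ) ≤ X := le_trans hX'le (by nlinarith [hle1 n3])
      exact_mod_cast this
    have hX''X' : X'' ≤ X' := by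
      have : (X'' : ℝ) ≤ X' := le_trans hX''le (by
        nlinarith [hle1 n3, (Nat.cast_nonneg X' : (0 : ℝ) ≤ X')])
      exact_mod_cast this
    have hX''X : (X'' : ℝ) ≤ X := by exact_mod_cast le_trans hX''X' hX'X
    have hXp3 : (X : ℝ) ≤ δ ^ n3 * p :=
      le_trans hXp (mul_le_mul_of_nonneg_right (h72_pow_anti hδ0 hδ1 (by omega)) hp0)
    -- first stage
    have hLP1 := hLP 0 (by omega) 1 le_rfl (by simp) (r + 1) le_rfl n2 (by omega) X X' (by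
      nlinarith [hle1 n4]) le_rfl hX'1 hX'X
    have hF1 : (fun n i z => F n i (((1 : ℕ) : ZMod p) * z)) = F := by
      funext n i z
      rw [Nat.cast_one, one_mul]
    rw [hF1] at hLP1
    obtain ⟨q, hq1, hq2, hbox⟩ := hlow p κ ι Ω F u δ X X' X'' hp hΩ hF hu hδ0 hδ1 hX1 hXp3 hB
      hX'1 hX'le hX''1 hX''le hLP1
    -- the inductive hypothesis at the scale `X''` for the dilated functions
    obtain ⟨q', hq'1, hq'2, hq'3⟩ := hn5 p κ ι Ω (fun n i z => F n i ((q : ZMod p) * z))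
      (fun i z => u i ((q : ZMod p) * z)) δ X'' hp hΩ (fun n i x => hF n i _)
      (fun i x => hu i _) hδ0 hδ1
      (le_trans (hXm (2 * n3 + 2) n5 (by omega)) hX''ge2)
      (le_trans hX''X (le_trans hXp
        (mul_le_mul_of_nonneg_right (h72_pow_anti hδ0 hδ1 (by omega)) hp0))) hbox (by
        intro nq hnq q' hq'1 hq'2 k hk m2 hm2 X2 X3 hX2 hX2' hX3 hX3'
        have h4 := hLP (nq + n1) (by omega) (q * q') (Nat.mul_pos hq1 hq'1) (by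
          push_cast
          rw [Nat.add_comm nq n1, pow_add]
          exact mul_le_mul hq2 hq'2 (Nat.cast_nonneg _) (by positivity)) k (by omega) m2
          (by omega) X2 X3 (by
            refine le_trans ?_ hX2
            refine le_trans ?_ (mul_le_mul_of_nonneg_left hX''ge2 (hpos n5).le)
            rw [← mul_assoc, ← pow_add]
            exact mul_le_mul_of_nonneg_right (h72_pow_anti hδ0 hδ1 (by omega)) hX0)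
          (le_trans hX2' (le_trans hX''X' hX'X)) hX3 hX3'
        have h5 : (fun n i z => F n i (((q * q' : ℕ) : ZMod p) * z)) =
            (fun n i z => F n i ((q : ZMod p) * ((q' : ZMod p) * z))) := by
          funext n i z
          rw [Nat.cast_mul, mul_assoc]
        rw [h5] at h4
        exact h4)
    refine ⟨q * q', Nat.mul_pos hq1 hq'1, ?_, ?_⟩
    · push_cast
      refine le_trans (mul_le_mul hq2 hq'2 (Nat.cast_nonneg _) (by positivity)) ?_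
      rw [← pow_add]
      exact h72_ipow_mono hδ0 hδ1 (by omega)
    · intro L hL1 hL2
      have h6 := hq'3 L hL1 (by
        refine le_trans hL2 ?_
        refine le_trans ?_ (mul_le_mul_of_nonneg_left hX''ge2 (hpos n5).le)
        rw [← mul_assoc, ← pow_add]
        exact mul_le_mul_of_nonneg_right (h72_pow_anti hδ0 hδ1 (by omega)) hX0)
      have h7 : (𝔼 i, nrm (A L (fun z => u i (((q * q' : ℕ) : ZMod p) * z)))) =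
          𝔼 i, nrm (A L (fun z => u i ((q : ZMod p) * ((q' : ZMod p) * z)))) := by
        refine expect_congr rfl fun i _ => ?_
        congr 2
        funext z
        rw [Nat.cast_mul, mul_assoc]
      rw [h7]
      exact le_trans (h72_pow_anti hδ0 hδ1 (by omega)) h6

theorem h9_raise {p : ℕ} [NeZero p] {κ : Type} [Fintype κ] [Nonempty κ] (k X : ℕ) (hX : 1 ≤ X)
    (u : κ → ZMod p → ℂ) (hu : ∀ i x, ‖u i x‖ ≤ 1) (n : ℕ) (δ : ℝ) (hδ0 : 0 < δ)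
    (h : δ ^ n ≤ 𝔼 i, Box k X (u i)) : δ ^ (2 * n) ≤ 𝔼 i, Box (k + 1) X (u i) := by
  have h1 : (𝔼 i, Box k X (u i)) ^ 2 ≤ 𝔼 i, Box k X (u i) ^ 2 := by
    rw [expect_eq_sum_div_card, expect_eq_sum_div_card, div_pow]
    have hc : (0 : ℝ) < (#(univ : Finset κ) : ℝ) := by
      have := Finset.card_pos.mpr (univ_nonempty (α := κ))
      exact_mod_cast this
    rw [div_le_div_iff₀ (by positivity) hc]
    have h2 := sq_sum_le_card_mul_sum_sq (s := (univ : Finset κ)) (f := fun i => Box k X (u i))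
    nlinarith
  have h2 : 𝔼 i, Box k X (u i) ^ 2 ≤ 𝔼 i, Box (k + 1) X (u i) :=
    expect_le_expect fun i _ => Box_succ_ge k X hX (hu i)
  have h3 : (δ ^ n) ^ 2 ≤ (𝔼 i, Box k X (u i)) ^ 2 :=
    pow_le_pow_left₀ (pow_pos hδ0 n).le h 2
  rw [mul_comm, pow_mul]
  linarith

/-- `dl_total'` from the two halves of the degree lowering step -/
theorem h9_dl_total (hL : ∀ k, 1 ≤ k → H9Low k) (r : ℕ) (Γ : ℕ → ℕ → ℕ) (n : ℕ) : ∃ n4 : ℕ,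
    ∀ (p : ℕ) [NeZero p] (κ ι : Type) [Fintype κ] [Nonempty κ] (Ω : Finset ι)
      (F : ι → κ → ZMod p → ℂ) (u : κ → ZMod p → ℂ) (δ : ℝ) (X : ℕ), p.Prime → Ω.Nonempty →
      (∀ n i x, ‖F n i x‖ ≤ 1) → (∀ i x, u i x = conj (𝔼 n ∈ Ω, F n i x)) →
      0 < δ → δ ≤ 1 / 2 → δ⁻¹ ^ n4 ≤ (X : ℝ) → (X : ℝ) ≤ δ ^ n4 * p →
      δ ^ n ≤ 𝔼 i, Box r X (u i) →
      (∀ nq ≤ n4, ∀ q : ℕ, 1 ≤ q → (q : ℝ) ≤ δ⁻¹ ^ nq → ∀ k ≤ r, ∀ n2 ≤ n4, ∀ X2 X' : ℕ,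
        δ ^ n4 * X ≤ X2 → X2 ≤ X → 1 ≤ X' → X' ≤ X2 →
        LPhM Ω (fun n i z => F n i ((q : ZMod p) * z)) k X' X2 (δ⁻¹ ^ (Γ nq n2))
          (δ⁻¹ ^ (Γ nq n2) / X2) (δ ^ n2)) →
      ∃ q : ℕ, 1 ≤ q ∧ (q : ℝ) ≤ δ⁻¹ ^ n4 ∧ ∀ L : ℕ, 1 ≤ L → (L : ℝ) ≤ δ ^ n4 * X →
        δ ^ n4 ≤ 𝔼 i, nrm (A L (fun z => u i ((q : ZMod p) * z))) := by
  obtain ⟨s, hs, hraise⟩ : ∃ s, s ≤ r ∧ ∀ (p : ℕ) [NeZero p] (κ : Type) [Fintype κ] [Nonempty κ]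
      (u : κ → ZMod p → ℂ) (δ : ℝ) (X : ℕ), (∀ i x, ‖u i x‖ ≤ 1) → 1 ≤ X → 0 < δ → δ ≤ 1 / 2 →
      δ ^ n ≤ 𝔼 i, Box r X (u i) → δ ^ (4 * n) ≤ 𝔼 i, Box (s + 2) X (u i) := by
    by_cases hr : 2 ≤ r
    · refine ⟨r - 2, by omega, ?_⟩
      intro p _ κ _ _ u δ X _ _ hδ0 hδ1 h
      have h1 : r - 2 + 2 = r := by omega
      rw [h1]
      exact le_trans (h72_pow_anti hδ0 hδ1 (by omega)) h
    · refine ⟨0, by omega, ?_⟩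
      intro p _ κ _ _ u δ X hu hX hδ0 hδ1 h
      have h2 : δ ^ (2 * n) ≤ 𝔼 i, Box 1 X (u i) := by
        interval_cases r
        · exact h9_raise 0 X hX u hu n δ hδ0 h
        · exact le_trans (h72_pow_anti hδ0 hδ1 (by omega)) h
      have h3 := h9_raise 1 X hX u hu (2 * n) δ hδ0 h2
      rw [show 4 * n = 2 * (2 * n) by ring]
      exact h3
  obtain ⟨n4, h4⟩ := h9_total hL s Γ (4 * n)
  refine ⟨n4, ?_⟩
  intro p _ κ ι _ _ Ω F u δ X hp hΩ hF hu hδ0 hδ1 hXlow hXp hB hLP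
  have hX1R : (1 : ℝ) ≤ X := by
    refine le_trans ?_ hXlow
    exact one_le_pow₀ (by
      rw [le_inv_comm₀ (by norm_num) hδ0]
      linarith)
  have hX1 : 1 ≤ X := by exact_mod_cast hX1R
  refine h4 p κ ι Ω F u δ X hp hΩ hF hu hδ0 hδ1 hXlow hXp
    (hraise p κ u δ X (h9_norm_u hF hu) hX1 hδ0 hδ1 hB) ?_
  intro nq hnq q hq1 hq2 k hk
  exact hLP nq hnq q hq1 hq2 k (le_trans hk hs)

end

end Pool.Agent.Helper67.NX2
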