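import Pool.Agent.Helper67.NX2.Defs
import Pool.Agent.Helper72.NX.DlTotalAux

/-!
# Project NX2, module A29 (part 1): the base case of the iterated degree lowering
-/

set_option autoImplicit false

open Finset
open scoped BigOperators ComplexConjugate

namespace Pool.Agent.Helper67.NX2

open Pool.Agent.Helper57.NX

noncomputable section

theorem h9_sum_zmod {N : ℕ} [NeZero N] (r : ZMod N) (f : ZMod N → ℝ) :
    ∑ x, f x = ∑ v ∈ range N, f (r + (v : ZMod N)) := by
  have h1 : ∑ x, f x = ∑ x, f (r + x) :=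
    (Equiv.sum_comp (Equiv.addLeft r) f).symm
  rw [h1]
  symm
  refine Finset.sum_nbij' (fun v => (v : ZMod N)) (fun x => x.val) ?_ ?_ ?_ ?_ ?_
  · intro v _; exact mem_univ _
  · intro x _; exact mem_range.mpr (ZMod.val_lt x)
  · intro v hv; exact ZMod.val_natCast_of_lt (mem_range.mp hv)
  · intro x _; exact ZMod.natCast_zmod_val x
  · intro v _; rfl

theorem h9_sum_blocks (K X : ℕ) (f : ℕ → ℝ) :
    ∑ v ∈ range (K * X), f v = ∑ j ∈ range K, ∑ t ∈ range X, f (j * X + t) := by
  induction K with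
  | zero => simp
  | succ K ih => rw [Nat.succ_mul, Finset.sum_range_add, ih, Finset.sum_range_succ]

/-- the blocks cover at most the whole group -/
theorem h9_blocks_le {N : ℕ} [NeZero N] (r : ZMod N) (X : ℕ) (f : ZMod N → ℝ)
    (hf : ∀ x, 0 ≤ f x) :
    (1 / N : ℝ) * ∑ j ∈ range (N / X), ∑ t ∈ range X, f (r + ((j * X + t : ℕ) : ZMod N)) ≤
      𝔼 x, f x := by
  rw [expect_eq_sum_div_card, h9_sum_zmod r f, card_univ, ZMod.card]
  rw [← h9_sum_blocks (N / X) X (fun v => f (r + (v : ZMod N)))]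
  rw [one_div, inv_mul_eq_div]
  refine div_le_div_of_nonneg_right ?_ (Nat.cast_nonneg N)
  refine Finset.sum_le_sum_of_subset_of_nonneg ?_ fun _ _ _ => hf _
  intro v hv
  rw [mem_range] at hv ⊢
  exact lt_of_lt_of_le hv (Nat.div_mul_le_self N X)

theorem h9_shift_sum (G : ℕ → ℂ) (hG : ∀ t, ‖G t‖ ≤ 1) (X s : ℕ) :
    ‖∑ t ∈ range X, G t - ∑ t ∈ range X, G (t + s)‖ ≤ 2 * s := by
  induction s with
  | zero => simp
  | succ s ih =>
    have h1 : ∑ t ∈ range X, G (t + (s + 1)) =
        ∑ t ∈ range X, G (t + s) + (G (X + s) - G s) := by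
      have h2 := Finset.sum_range_succ (fun t => G (t + s)) X
      have h3 := Finset.sum_range_succ' (fun t => G (t + s)) X
      rw [h2] at h3
      simp only [Nat.zero_add] at h3
      have h4 : ∑ t ∈ range X, G (t + (s + 1)) = ∑ t ∈ range X, G (t + 1 + s) := by
        refine sum_congr rfl fun t _ => ?_
        congr 1
        ring
      rw [h4]
      linear_combination -h3
    rw [h1]
    have h5 : ∑ t ∈ range X, G t - (∑ t ∈ range X, G (t + s) + (G (X + s) - G s)) =
        (∑ t ∈ range X, G t - ∑ t ∈ range X, G (t + s)) - (G (X + s) - G s) := by ring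
    rw [h5]
    refine le_trans (norm_sub_le _ _) ?_
    have h6 := norm_sub_le (G (X + s)) (G s)
    have h7 := hG (X + s)
    have h8 := hG s
    push_cast
    linarith

/-- long averages with a phase against short progressions -/
theorem h9_window {N : ℕ} [NeZero N] {f : ZMod N → ℂ} (hf : ∀ x, ‖f x‖ ≤ 1) (x0 : ZMod N)
    (θ : ℝ) (X q L : ℕ) (hX : 1 ≤ X) (hL : 1 ≤ L) :
    ‖𝔼 t ∈ range X, f (x0 + (t : ZMod N)) * e (-(θ * t))‖ ≤
      (𝔼 t ∈ range X, ‖𝔼 l ∈ range L, f (x0 + (t : ZMod N) + ((q * l : ℕ) : ZMod N))‖)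
        + 2 * Real.pi * dint (q * θ) * L + 2 * q * L / X := by
  set G : ℕ → ℂ := fun t => f (x0 + (t : ZMod N)) * e (-(θ * t)) with hG
  have hG1 : ∀ t, ‖G t‖ ≤ 1 := by
    intro t
    simp only [hG]
    rw [norm_mul, norm_e, mul_one]
    exact hf _
  have hX0 : (0 : ℝ) < X := by exact_mod_cast hX
  have hL0 : (0 : ℝ) < L := by exact_mod_cast hL
  have hLne : (range L).Nonempty := ⟨0, mem_range.mpr (by omega)⟩
  have hXne : (range X).Nonempty := ⟨0, mem_range.mpr (by omega)⟩
  -- replace by the double average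
  have h1 : ‖(𝔼 t ∈ range X, G t) - 𝔼 l ∈ range L, 𝔼 t ∈ range X, G (t + q * l)‖
      ≤ 2 * q * L / X := by
    have h2 : (𝔼 t ∈ range X, G t) = 𝔼 l ∈ range L, 𝔼 t ∈ range X, G t := by
      rw [expect_const hLne]
    rw [h2, ← expect_sub_distrib]
    refine norm_expect_le_of5 _ _ (by positivity) fun l hl => ?_
    rw [mem_range] at hl
    rw [expect_eq_sum_div_card, expect_eq_sum_div_card, ← sub_div, norm_div, card_range,
      Complex.norm_natCast]
    refine div_le_div_of_nonneg_right ?_ hX0.le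
    refine le_trans (h9_shift_sum G hG1 X (q * l)) ?_
    push_cast
    have : (l : ℝ) ≤ L := by exact_mod_cast hl.le
    have hq : (0 : ℝ) ≤ q := Nat.cast_nonneg q
    nlinarith
  -- the inner averages
  have h3 : ‖𝔼 l ∈ range L, 𝔼 t ∈ range X, G (t + q * l)‖ ≤
      (𝔼 t ∈ range X, ‖𝔼 l ∈ range L, f (x0 + (t : ZMod N) + ((q * l : ℕ) : ZMod N))‖)
        + 2 * Real.pi * dint (q * θ) * L := by
    rw [expect_comm]
    refine le_trans (norm_expect_le5 _ _) ?_
    have h4 : ∀ t ∈ range X, ‖𝔼 l ∈ range L, G (t + q * l)‖ ≤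
        ‖𝔼 l ∈ range L, f (x0 + (t : ZMod N) + ((q * l : ℕ) : ZMod N))‖
          + 2 * Real.pi * dint (q * θ) * L := by
      intro t _
      set d : ℝ := q * θ - round (q * θ) with hd
      have hGl : ∀ l : ℕ, G (t + q * l) = e (-(θ * t)) *
          (f (x0 + (t : ZMod N) + ((q * l : ℕ) : ZMod N)) * e (-(d * l))) := by
        intro l
        simp only [hG]
        have h5 : e (-(θ * ((t + q * l : ℕ) : ℝ))) = e (-(θ * t)) * e (-(d * l)) := by
          have h6 : -(θ * ((t + q * l : ℕ) : ℝ)) =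
              (-(θ * t) + -(d * l)) + ((-(round (q * θ)) * l : ℤ) : ℝ) := by
            rw [hd]
            push_cast
            ring
          rw [h6, e_add _ (((-(round (q * θ)) * l : ℤ) : ℝ)), e_int, mul_one, e_add]
        rw [h5]
        have h7 : x0 + ((t + q * l : ℕ) : ZMod N) =
            x0 + (t : ZMod N) + ((q * l : ℕ) : ZMod N) := by
          push_cast
          ring
        rw [h7]
        ring
      have h8 : 𝔼 l ∈ range L, G (t + q * l) = e (-(θ * t)) *
          𝔼 l ∈ range L, f (x0 + (t : ZMod N) + ((q * l : ℕ) : ZMod N)) * e (-(d * l)) := by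
        rw [mul_expect]
        exact expect_congr rfl fun l _ => hGl l
      rw [h8, norm_mul, norm_e, one_mul]
      have h9 : 𝔼 l ∈ range L, f (x0 + (t : ZMod N) + ((q * l : ℕ) : ZMod N)) * e (-(d * l)) =
          (𝔼 l ∈ range L, f (x0 + (t : ZMod N) + ((q * l : ℕ) : ZMod N))) +
          𝔼 l ∈ range L, f (x0 + (t : ZMod N) + ((q * l : ℕ) : ZMod N)) *
            (e (-(d * l)) - 1) := by
        rw [← expect_add_distrib]
        refine expect_congr rfl fun l _ => ?_
        ring
      rw [h9]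
      refine le_trans (norm_add_le _ _) ?_
      have h10 : ‖𝔼 l ∈ range L, f (x0 + (t : ZMod N) + ((q * l : ℕ) : ZMod N)) *
            (e (-(d * l)) - 1)‖ ≤ 2 * Real.pi * dint (q * θ) * L := by
        have hdint : 0 ≤ dint (q * θ) := abs_nonneg _
        refine norm_expect_le_of5 _ _ (by positivity) fun l hl => ?_
        rw [mem_range] at hl
        rw [norm_mul]
        have h11 : ‖e (-(d * l)) - 1‖ ≤ 2 * Real.pi * (dint (q * θ) * l) := by
          have := norm_e_sub_e_le (-(d * l)) 0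
          rw [e_zero, sub_zero, abs_neg, abs_mul, Nat.abs_cast] at this
          exact this
        have h12 : (l : ℝ) ≤ L := by exact_mod_cast hl.le
        have h13 : dint (q * θ) * l ≤ dint (q * θ) * L := mul_le_mul_of_nonneg_left h12 hdint
        have hpi := Real.pi_pos
        calc _ ≤ 1 * (2 * Real.pi * (dint (q * θ) * l)) :=
              mul_le_mul (hf _) h11 (norm_nonneg _) zero_le_one
          _ ≤ _ := by nlinarith
      linarith
    refine le_trans (expect_le_expect h4) ?_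
    rw [expect_add_distrib, expect_const hXne]
  have h14 := norm_sub_le (𝔼 l ∈ range L, 𝔼 t ∈ range X, G (t + q * l))
    ((𝔼 l ∈ range L, 𝔼 t ∈ range X, G (t + q * l)) - 𝔼 t ∈ range X, G t)
  rw [sub_sub_cancel] at h14
  rw [norm_sub_rev] at h1
  linarith

/-- dilation of the average -/
theorem h9_nrm_dil {p : ℕ} [NeZero p] (hp : p.Prime) (q L : ℕ) (hq1 : 1 ≤ q) (hqp : q < p)
    (f : ZMod p → ℂ) :
    𝔼 x, ‖𝔼 l ∈ range L, f (x + ((q * l : ℕ) : ZMod p))‖ =
      nrm (A L (fun z => f ((q : ZMod p) * z))) := by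
  have : Fact p.Prime := ⟨hp⟩
  have hq0 : (q : ZMod p) ≠ 0 := by
    rw [Ne, ZMod.natCast_eq_zero_iff]
    intro h
    have := Nat.le_of_dvd (by omega) h
    omega
  unfold nrm A
  symm
  refine Fintype.expect_equiv (Equiv.mulLeft₀ (q : ZMod p) hq0) _ _ ?_
  intro z
  simp only [Equiv.mulLeft₀_apply]
  congr 1
  refine expect_congr rfl fun l _ => ?_
  congr 1
  push_cast
  ring

theorem h9_norm_u {p : ℕ} {κ ι : Type} {Ω : Finset ι}
    {F : ι → κ → ZMod p → ℂ} {u : κ → ZMod p → ℂ} (hF : ∀ n i x, ‖F n i x‖ ≤ 1)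
    (hu : ∀ i x, u i x = conj (𝔼 n ∈ Ω, F n i x)) (i : κ) (x : ZMod p) : ‖u i x‖ ≤ 1 := by
  rw [hu, Complex.norm_conj]
  exact norm_expect_le_of5 _ _ zero_le_one fun n _ => hF n i x

theorem h9_boxset_zero (X : ℕ) (a : Fin 0 → ℕ) : a ∈ boxset 0 X := by
  simp only [boxset, Fintype.mem_piFinset]
  intro i
  exact i.elim0

theorem h9_cube_zero {N : ℕ} (f : ZMod N → ℂ) (a b : Fin 0 → ℕ) (x : ZMod N) :
    cube f a b x = f x := by
  unfold cube
  rw [Fintype.prod_unique]
  unfold cjj
  rw [if_pos (by simp)]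
  unfold tot
  simp

/-- the block sums for the phase functions -/
theorem h9_block_eval {N : ℕ} [NeZero N] (u : ZMod N → ℂ) (r : ZMod N) (X : ℕ) (hX : 1 ≤ X)
    (θ : ℕ → ℝ) (w : ℕ → ℂ) (P : ℕ → Prop) [DecidablePred P]
    (hw : ∀ j, w j * (𝔼 t ∈ range X, u (r + ((j * X + t : ℕ) : ZMod N)) * e (-(θ j * t))) =
      ((‖𝔼 t ∈ range X, u (r + ((j * X + t : ℕ) : ZMod N)) * e (-(θ j * t))‖ : ℝ) : ℂ)) :
    𝔼 x, conj (u x) * bphase X r
      (fun j => if j < N / X ∧ P j then conj (w j) * e (-(θ j * (j * X : ℕ))) else 0) θ x =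
      (((1 / N : ℝ) * ∑ j ∈ range (N / X), if P j then
        X * ‖𝔼 t ∈ range X, u (r + ((j * X + t : ℕ) : ZMod N)) * e (-(θ j * t))‖ else 0 : ℝ) : ℂ)
      := by
  set K := N / X with hK
  set cc : ℕ → ℂ := fun j => if j < K ∧ P j then conj (w j) * e (-(θ j * (j * X : ℕ))) else 0
    with hcc
  have hval : ∀ v, v < N → ((r + (v : ZMod N)) - r).val = v := by
    intro v hv
    rw [add_sub_cancel_left]
    exact ZMod.val_natCast_of_lt hv
  have hzero : ∀ v, K * X ≤ v → v < N →
      conj (u (r + (v : ZMod N))) * bphase X r cc θ (r + (v : ZMod N)) = 0 := by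
    intro v hv1 hv2
    unfold bphase
    rw [hval v hv2]
    have : ¬ (v / X < K ∧ P (v / X)) := by
      rintro ⟨h, _⟩
      have := (Nat.le_div_iff_mul_le (by omega : 0 < X)).mpr hv1
      omega
    simp only [hcc]
    rw [if_neg this]
    simp
  rw [h72_expect_blocks r X (fun x => conj (u x) * bphase X r cc θ x) hzero]
  rw [Complex.ofReal_mul, Complex.ofReal_sum]
  congr 1
  · push_cast
    rfl
  refine sum_congr rfl fun j hj => ?_
  rw [mem_range] at hj
  have hlt : ∀ t ∈ range X, j * X + t < N := by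
    intro t ht
    rw [mem_range] at ht
    calc j * X + t < j * X + X := by omega
      _ = (j + 1) * X := by ring
      _ ≤ K * X := Nat.mul_le_mul_right X (by omega)
      _ ≤ N := Nat.div_mul_le_self N X
  have hdiv : ∀ t ∈ range X, (j * X + t) / X = j := by
    intro t ht
    rw [mem_range] at ht
    rw [mul_comm, Nat.mul_add_div (by omega), Nat.div_eq_of_lt ht, Nat.add_zero]
  by_cases hg : P j
  · rw [if_pos hg]
    have hterm : ∀ t ∈ range X, conj (u (r + ((j * X + t : ℕ) : ZMod N))) *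
        bphase X r cc θ (r + ((j * X + t : ℕ) : ZMod N)) =
        conj (w j * (u (r + ((j * X + t : ℕ) : ZMod N)) * e (-(θ j * t)))) := by
      intro t ht
      unfold bphase
      rw [hval _ (hlt t ht), hdiv t ht]
      simp only [hcc]
      rw [if_pos ⟨hj, hg⟩]
      have h1 : e (-(θ j * (j * X : ℕ))) * e (θ j * ((j * X + t : ℕ) : ℝ)) =
          conj (e (-(θ j * t))) := by
        rw [← e_neg, ← e_add]
        congr 1
        push_cast
        ring
      rw [map_mul, map_mul, ← h1]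
      ring
    rw [sum_congr rfl hterm, ← map_sum, ← mul_sum]
    have hSsum : ∑ t ∈ range X, u (r + ((j * X + t : ℕ) : ZMod N)) * e (-(θ j * t)) =
        (X : ℂ) * 𝔼 t ∈ range X, u (r + ((j * X + t : ℕ) : ZMod N)) * e (-(θ j * t)) := by
      rw [expect_eq_sum_div_card, card_range]
      have : (X : ℂ) ≠ 0 := by exact_mod_cast (by omega : X ≠ 0)
      field_simp
    rw [hSsum, mul_left_comm, hw j, map_mul, Complex.conj_ofReal, Complex.conj_natCast]
    push_cast
    rfl
  · rw [if_neg hg, Complex.ofReal_zero]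
    refine sum_eq_zero fun t ht => ?_
    unfold bphase
    rw [hval _ (hlt t ht), hdiv t ht]
    simp only [hcc]
    rw [if_neg (fun h => hg h.2)]
    simp

end

end Pool.Agent.Helper67.NX2
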