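import Pool.Agent.Helper9.NX2.DlTotalBase

/-!
# Project NX2, module A29 (part 2): from the second box norm to progression averages
-/

set_option autoImplicit false

open Finset
open scoped BigOperators ComplexConjugate

namespace Pool.Agent.Helper67.NX2

open Pool.Agent.Helper57.NX

noncomputable section

theorem h9_two (n n1 : ℕ) (p : ℕ) [NeZero p] (κ ι : Type) [Fintype κ] [Nonempty κ]
    (Ω : Finset ι) (F : ι → κ → ZMod p → ℂ) (u : κ → ZMod p → ℂ) (δ : ℝ) (X : ℕ)
    (hp : p.Prime)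
    (hF : ∀ n i x, ‖F n i x‖ ≤ 1) (hu : ∀ i x, u i x = conj (𝔼 n ∈ Ω, F n i x))
    (hδ0 : 0 < δ) (hδ1 : δ ≤ 1 / 2) (hX1 : 1 ≤ X) (hXp : (X : ℝ) ≤ δ ^ (n + 3 + n1) * p)
    (hB : δ ^ n ≤ 𝔼 i, Box 2 X (u i))
    (hLP : LPhM Ω F 0 1 X (δ⁻¹ ^ n1) (δ⁻¹ ^ n1 / X) (δ ^ (n + 4))) :
    ∃ q : ℕ, 1 ≤ q ∧ (q : ℝ) ≤ δ⁻¹ ^ n1 ∧ ∀ L : ℕ, 1 ≤ L → (L : ℝ) ≤ δ ^ (n + 8 + 2 * n1) * X →
      δ ^ (n + 8 + 2 * n1) ≤ 𝔼 i, nrm (A L (fun z => u i ((q : ZMod p) * z))) := by
  classical
  have hu1 : ∀ i x, ‖u i x‖ ≤ 1 := h9_norm_u hF hu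
  have hX0 : (0 : ℝ) < X := by exact_mod_cast hX1
  have hp0 : (0 : ℝ) < p := by exact_mod_cast hp.pos
  have hδle1 : δ ≤ 1 := by linarith
  have hδinv : 2 ≤ δ⁻¹ := by
    rw [le_inv_comm₀ (by norm_num) hδ0]
    linarith
  have hpos : ∀ a : ℕ, 0 < δ ^ a := fun a => pow_pos hδ0 a
  have hle1 : ∀ a : ℕ, δ ^ a ≤ 1 := fun a => pow_le_one₀ hδ0.le hδle1
  have h3 : δ ^ 3 ≤ 1 / 8 := by
    have := pow_le_pow_left₀ hδ0.le hδ1 3
    norm_num at this ⊢
    linarith
  have hXN4 : (X : ℝ) ≤ δ ^ n / 8 * p := by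
    refine le_trans hXp ?_
    have h4 : δ ^ (n + 3 + n1) ≤ δ ^ n / 8 := by
      rw [pow_add, pow_add]
      have h5 : δ ^ n * δ ^ 3 ≤ δ ^ n / 8 := by nlinarith [hpos n]
      have h6 : δ ^ n * δ ^ 3 * δ ^ n1 ≤ δ ^ n * δ ^ 3 := by
        nlinarith [hle1 n1, mul_pos (hpos n) (hpos 3)]
      linarith
    exact mul_le_mul_of_nonneg_right h4 hp0.le
  have hXN8 : (X : ℝ) ≤ p / 8 := by
    refine le_trans hXN4 ?_
    have : δ ^ n / 8 * p ≤ 1 / 8 * p :=
      mul_le_mul_of_nonneg_right (by linarith [hle1 n]) hp0.le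
    linarith
  have hXNn : X ≤ p := by
    have : (X : ℝ) ≤ p := by linarith
    exact_mod_cast this
  set R : ℝ := δ⁻¹ ^ n1 with hR
  have hR1 : 1 ≤ R := one_le_pow₀ (by linarith)
  have hR0 : 0 < R := by linarith
  set V : ℝ := R / X with hV
  have hV0 : 0 < V := by positivity
  obtain ⟨r, θ, hθ, hU⟩ := u2_block (N := p) (κ := κ) univ univ_nonempty
    u hu1 X hX1 hXNn
  have hBU : 𝔼 i, Box 2 X (u i) = 𝔼 i, U2 X (u i) :=
    expect_congr rfl fun i _ => h72_box_two X (u i)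
  rw [← hBU] at hU
  set S : κ → ℕ → ℂ := fun i j => 𝔼 t ∈ range X,
    u i (r + ((j * X + t : ℕ) : ZMod p)) * e (-(θ i j * t)) with hS
  set K : ℕ := p / X with hK
  have hKX : (p : ℝ) / 2 ≤ K * X := by
    have h1 : p < (p / X + 1) * X := by
      have := Nat.lt_div_mul_add (a := p) (b := X) (by omega)
      rw [Nat.add_mul, Nat.one_mul]
      exact this
    have h2 : (p : ℝ) < (K + 1) * X := by exact_mod_cast h1
    nlinarith
  have hKX2 : (K : ℝ) * X ≤ p := by exact_mod_cast Nat.div_mul_le_self p X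
  set E : ℝ := 𝔼 i, 𝔼 j ∈ range K, ‖S i j‖ with hE
  have hElow : 3 * δ ^ n / 8 ≤ E := by
    have h1 : δ ^ n ≤ 2 * E + 2 * X / p := le_trans hB hU
    have h2 : 2 * (X : ℝ) / p ≤ δ ^ n / 4 := by
      rw [div_le_iff₀ hp0]
      linarith
    linarith
  choose w hw1 hw2 using fun i j => h72_unimod (S i j)
  -- major pairs
  set maj : κ → ℕ → Prop := fun i j => ∃ q : ℕ, 1 ≤ q ∧ (q : ℝ) ≤ R ∧ dint (q * θ i j) ≤ V
    with hmaj
  -- the minor part
  have hminor : 𝔼 i : κ, (1 / p : ℝ) * ∑ j ∈ range K, (if ¬ maj i j then X * ‖S i j‖ else 0)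
      < δ ^ (n + 4) := by
    have h1 := hLP (fun i => i.elim0) (h9_boxset_zero 1 _) (fun i => i.elim0)
      (h9_boxset_zero 1 _) r
      (fun i j => if j < p / X ∧ ¬ maj i j then conj (w i j) * e (-(θ i j * (j * X : ℕ))) else 0)
      θ ?_ ?_
    · have h2 : 𝔼 n ∈ Ω, 𝔼 i : κ, 𝔼 x, cube (F n i) (fun i : Fin 0 => i.elim0)
          (fun i : Fin 0 => i.elim0) x * bphase X r
          (fun j => if j < p / X ∧ ¬ maj i j then
            conj (w i j) * e (-(θ i j * (j * X : ℕ))) else 0) (θ i) x =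
          ((𝔼 i : κ, (1 / p : ℝ) * ∑ j ∈ range K,
            (if ¬ maj i j then X * ‖S i j‖ else 0) : ℝ) : ℂ) := by
        rw [expect_comm]
        have h3 : ∀ i : κ, 𝔼 n ∈ Ω, 𝔼 x, cube (F n i) (fun i : Fin 0 => i.elim0)
          (fun i : Fin 0 => i.elim0) x * bphase X r
          (fun j => if j < p / X ∧ ¬ maj i j then
            conj (w i j) * e (-(θ i j * (j * X : ℕ))) else 0) (θ i) x =
          (((1 / p : ℝ) * ∑ j ∈ range K,
            (if ¬ maj i j then X * ‖S i j‖ else 0) : ℝ) : ℂ) := by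
          intro i
          rw [← h9_block_eval (u i) r X hX1 (θ i) (w i) (fun j => ¬ maj i j) (hw2 i)]
          rw [expect_comm]
          refine expect_congr rfl fun x _ => ?_
          rw [hu i x, Complex.conj_conj, expect_mul]
          refine expect_congr rfl fun n _ => ?_
          rw [h9_cube_zero]
        rw [expect_congr rfl fun i _ => h3 i]
        rw [Complex.ofReal_expect]
      rw [h2, Complex.norm_real, Real.norm_eq_abs] at h1
      exact lt_of_le_of_lt (le_abs_self _) h1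
    · intro i j
      split_ifs
      · rw [norm_mul, norm_e, mul_one, Complex.norm_conj]
        exact hw1 i j
      · simp
    · intro i j hne q hq1 hq
      by_contra hcon
      apply hne
      rw [if_neg]
      rintro ⟨_, h⟩
      exact h ⟨q, hq1, hq, not_lt.mp hcon⟩
  -- the total
  have htotal : 3 * δ ^ n / 16 ≤ 𝔼 i : κ, (1 / p : ℝ) * ∑ j ∈ range K, (X * ‖S i j‖) := by
    have h1 : 𝔼 i : κ, (1 / p : ℝ) * ∑ j ∈ range K, (X * ‖S i j‖) = (K * X / p) * E := by
      rw [hE, mul_expect]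
      refine expect_congr rfl fun i _ => ?_
      have h2 : (K : ℝ) * 𝔼 j ∈ range K, ‖S i j‖ = ∑ j ∈ range K, ‖S i j‖ := by
        rw [expect_eq_sum_div_card, card_range]
        have hK0 : (K : ℝ) ≠ 0 := by
          intro h
          rw [h] at hKX
          linarith
        field_simp
      rw [← mul_sum, ← h2]
      ring
    rw [h1]
    have h2 : 1 / 2 ≤ (K * X / p : ℝ) := by
      rw [le_div_iff₀ hp0]
      linarith
    have h3 : 0 ≤ E := by linarith [hpos n]
    nlinarith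
  -- the major part
  have hmajor : δ ^ n / 8 ≤ 𝔼 i : κ, (1 / p : ℝ) * ∑ j ∈ range K,
      (if maj i j then X * ‖S i j‖ else 0) := by
    have h1 : 𝔼 i : κ, (1 / p : ℝ) * ∑ j ∈ range K, (X * ‖S i j‖) =
        (𝔼 i : κ, (1 / p : ℝ) * ∑ j ∈ range K, (if maj i j then X * ‖S i j‖ else 0)) +
        𝔼 i : κ, (1 / p : ℝ) * ∑ j ∈ range K, (if ¬ maj i j then X * ‖S i j‖ else 0) := by
      rw [← expect_add_distrib]
      refine expect_congr rfl fun i _ => ?_
      rw [← mul_add, ← sum_add_distrib]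
      congr 1
      refine sum_congr rfl fun j _ => ?_
      by_cases h : maj i j
      · simp [h]
      · simp [h]
    have h4 : δ ^ (n + 4) ≤ δ ^ n / 16 := by
      rw [pow_add]
      have : δ ^ 4 ≤ 1 / 16 := by
        have := pow_le_pow_left₀ hδ0.le hδ1 4
        norm_num at this ⊢
        linarith
      nlinarith [hpos n]
    linarith
  -- pigeonhole
  set T : ℕ → ℝ := fun q => 𝔼 i : κ, (1 / p : ℝ) * ∑ j ∈ range K,
      (if dint (q * θ i j) ≤ V then X * ‖S i j‖ else 0) with hT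
  have hTsum : δ ^ n / 8 ≤ ∑ q ∈ Icc 1 ⌊R⌋₊, T q := by
    refine le_trans hmajor ?_
    simp only [hT]
    rw [← expect_sum_comm]
    refine expect_le_expect fun i _ => ?_
    rw [← mul_sum, sum_comm]
    refine mul_le_mul_of_nonneg_left ?_ (by positivity)
    refine sum_le_sum fun j _ => ?_
    have hnn : ∀ q ∈ Icc 1 ⌊R⌋₊, 0 ≤ (if dint ((q : ℝ) * θ i j) ≤ V then
        (X : ℝ) * ‖S i j‖ else 0) := by
      intro q _
      split_ifs
      · positivity
      · exact le_rfl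
    split_ifs with h
    · obtain ⟨q, hq1, hq2, hq3⟩ := h
      have hq : q ∈ Icc 1 ⌊R⌋₊ := mem_Icc.mpr ⟨hq1, Nat.le_floor hq2⟩
      refine le_trans ?_ (single_le_sum hnn hq)
      rw [if_pos hq3]
    · exact sum_nonneg hnn
  obtain ⟨q, hq, hTq⟩ : ∃ q ∈ Icc 1 ⌊R⌋₊, δ ^ n / 8 / R ≤ T q := by
    by_contra hcon
    push Not at hcon
    have hfl : 1 ≤ ⌊R⌋₊ := (Nat.one_le_floor_iff _).mpr hR1
    have hne : (Icc 1 ⌊R⌋₊).Nonempty := ⟨1, mem_Icc.mpr ⟨le_rfl, hfl⟩⟩
    have h1 : ∑ q ∈ Icc 1 ⌊R⌋₊, T q < ∑ q ∈ Icc 1 ⌊R⌋₊, δ ^ n / 8 / R :=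
      sum_lt_sum_of_nonempty hne hcon
    rw [sum_const, Nat.card_Icc, Nat.add_sub_cancel, nsmul_eq_mul] at h1
    have h2 : (⌊R⌋₊ : ℝ) * (δ ^ n / 8 / R) ≤ R * (δ ^ n / 8 / R) :=
      mul_le_mul_of_nonneg_right (Nat.floor_le hR0.le)
        (div_nonneg (div_nonneg (hpos n).le (by norm_num)) hR0.le)
    have h3 : R * (δ ^ n / 8 / R) = δ ^ n / 8 := by field_simp
    linarith
  rw [mem_Icc] at hq
  have hqR : (q : ℝ) ≤ R := le_trans (by exact_mod_cast hq.2) (Nat.floor_le hR0.le)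
  refine ⟨q, hq.1, hqR, ?_⟩
  intro L hL1 hL
  have hL0 : (0 : ℝ) < L := by exact_mod_cast hL1
  have hqp : q < p := by
    have h1 : R * δ ^ n1 = 1 := by
      rw [hR, ← mul_pow, inv_mul_cancel₀ hδ0.ne', one_pow]
    have h2 : (1 : ℝ) ≤ δ ^ (n + 3 + n1) * p := le_trans (by exact_mod_cast hX1) hXp
    have h4 : δ ^ (n + 3 + n1) ≤ δ ^ n1 / 8 := by
      rw [pow_add, pow_add]
      have h5 : δ ^ n * δ ^ 3 ≤ 1 / 8 := by nlinarith [hpos n, hle1 n, hpos 3]
      nlinarith [hpos n1]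
    have h5 : (1 : ℝ) ≤ δ ^ n1 / 8 * p := le_trans h2 (mul_le_mul_of_nonneg_right h4 hp0.le)
    have h6 : R ≤ p / 8 := by
      have h7 := mul_le_mul_of_nonneg_left h5 hR0.le
      have h8 : R * (δ ^ n1 / 8 * p) = (R * δ ^ n1) * p / 8 := by ring
      rw [h8, h1] at h7
      linarith
    have h7 : (q : ℝ) < p := by linarith
    exact_mod_cast h7
  -- windows
  have hwin : T q ≤ (𝔼 i, nrm (A L (fun z => u i ((q : ZMod p) * z)))) +
      (2 * Real.pi * V * L + 2 * q * L / X) := by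
    have h1 : ∀ i : κ, (1 / p : ℝ) * ∑ j ∈ range K,
        (if dint (q * θ i j) ≤ V then X * ‖S i j‖ else 0) ≤
        nrm (A L (fun z => u i ((q : ZMod p) * z))) + (2 * Real.pi * V * L + 2 * q * L / X) := by
      intro i
      rw [← h9_nrm_dil hp q L hq.1 hqp (u i)]
      refine le_trans ?_ (add_le_add_left (h9_blocks_le r X
        (fun x => ‖𝔼 l ∈ range L, u i (x + ((q * l : ℕ) : ZMod p))‖)
        (fun _ => norm_nonneg _)) _)
      have h2 : ∀ j ∈ range K, (if dint (q * θ i j) ≤ V then X * ‖S i j‖ else 0) ≤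
          ∑ t ∈ range X, ‖𝔼 l ∈ range L, u i (r + ((j * X + t : ℕ) : ZMod p) +
            ((q * l : ℕ) : ZMod p))‖ + X * (2 * Real.pi * V * L + 2 * q * L / X) := by
        intro j _
        have hpi := Real.pi_pos
        split_ifs with h
        · have h3 := h9_window (hu1 i) (r + ((j * X : ℕ) : ZMod p)) (θ i j) X q L hX1 hL1
          have h4 : S i j = 𝔼 t ∈ range X,
              u i (r + ((j * X : ℕ) : ZMod p) + (t : ZMod p)) * e (-(θ i j * t)) := by
            simp only [hS]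
            refine expect_congr rfl fun t _ => ?_
            congr 2
            push_cast
            ring
          rw [← h4] at h3
          have h5 : (X : ℝ) * (𝔼 t ∈ range X, ‖𝔼 l ∈ range L,
              u i (r + ((j * X : ℕ) : ZMod p) + (t : ZMod p) + ((q * l : ℕ) : ZMod p))‖) =
              ∑ t ∈ range X, ‖𝔼 l ∈ range L, u i (r + ((j * X + t : ℕ) : ZMod p) +
                ((q * l : ℕ) : ZMod p))‖ := by
            rw [expect_eq_sum_div_card, card_range, mul_div_cancel₀ _ hX0.ne']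
            refine sum_congr rfl fun t _ => ?_
            congr 1
            refine expect_congr rfl fun l _ => ?_
            congr 2
            push_cast
            ring
          rw [← h5, ← mul_add]
          refine mul_le_mul_of_nonneg_left ?_ hX0.le
          have h6 : 2 * Real.pi * dint (q * θ i j) * L ≤ 2 * Real.pi * V * L := by
            refine mul_le_mul_of_nonneg_right ?_ hL0.le
            exact mul_le_mul_of_nonneg_left h (by positivity)
          linarith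
        · positivity
      have h7 := mul_le_mul_of_nonneg_left (sum_le_sum h2) (by positivity : (0 : ℝ) ≤ 1 / p)
      refine le_trans h7 ?_
      rw [sum_add_distrib, mul_add, sum_const, card_range, nsmul_eq_mul]
      have hpi := Real.pi_pos
      have h8 : (0 : ℝ) ≤ 2 * Real.pi * V * L + 2 * q * L / X := by positivity
      have h9 : (1 / p : ℝ) * (K * (X * (2 * Real.pi * V * L + 2 * q * L / X))) ≤
          2 * Real.pi * V * L + 2 * q * L / X := by
        have h10 : (1 / p : ℝ) * (K * (X * (2 * Real.pi * V * L + 2 * q * L / X))) =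
            (K * X / p) * (2 * Real.pi * V * L + 2 * q * L / X) := by ring
        rw [h10]
        have h11 : (K * X / p : ℝ) ≤ 1 := by
          rw [div_le_one hp0]
          exact hKX2
        nlinarith
      linarith
    simp only [hT]
    refine le_trans (expect_le_expect fun i _ => h1 i) ?_
    rw [expect_add_distrib, expect_const univ_nonempty]
  -- errors
  have herr : 2 * Real.pi * V * L + 2 * q * L / X ≤ δ ^ (n + 4 + n1) := by
    have h1 : 2 * (q : ℝ) * L / X ≤ 2 * R * L / X := by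
      refine div_le_div_of_nonneg_right ?_ hX0.le
      nlinarith
    have h2 : 2 * Real.pi * V * L ≤ 8 * R * L / X := by
      rw [hV]
      have h3 : 2 * Real.pi * (R / X) * L = (2 * Real.pi) * (R * L / X) := by ring
      have h4 : 8 * R * L / X = 8 * (R * L / X) := by ring
      rw [h3, h4]
      refine mul_le_mul_of_nonneg_right ?_ (by positivity)
      linarith [Real.pi_lt_four]
    have h5 : 8 * R * L / X + 2 * R * L / X = 10 * (R * (L / X)) := by ring
    have h6 : (L : ℝ) / X ≤ δ ^ (n + 8 + 2 * n1) := by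
      rw [div_le_iff₀ hX0]
      exact hL
    have h7 : R * (L / X) ≤ R * δ ^ (n + 8 + 2 * n1) := mul_le_mul_of_nonneg_left h6 hR0.le
    have h8 : R * δ ^ (n + 8 + 2 * n1) = δ ^ (n + 8 + n1) := by
      have h9 : n + 8 + 2 * n1 = n1 + (n + 8 + n1) := by omega
      rw [hR, h9, pow_add, ← mul_assoc, ← mul_pow, inv_mul_cancel₀ hδ0.ne', one_pow, one_mul]
    have h10 : δ ^ (n + 8 + n1) ≤ δ ^ (n + 4 + n1) / 16 := by
      have h11 : n + 8 + n1 = (n + 4 + n1) + 4 := by omega
      rw [h11, pow_add]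
      have : δ ^ 4 ≤ 1 / 16 := by
        have := pow_le_pow_left₀ hδ0.le hδ1 4
        norm_num at this ⊢
        linarith
      nlinarith [hpos (n + 4 + n1)]
    have h12 := hpos (n + 4 + n1)
    linarith
  have hmain : δ ^ (n + 3 + n1) ≤ T q := by
    refine le_trans ?_ hTq
    have h1 : δ ^ n / 8 / R = δ ^ n * δ ^ n1 / 8 := by
      rw [hR, inv_pow]
      field_simp
    rw [h1, pow_add, pow_add]
    have := mul_pos (hpos n) (hpos n1)
    nlinarith
  have h1 : 2 * δ ^ (n + 4 + n1) ≤ δ ^ (n + 3 + n1) := by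
    have h2 : n + 4 + n1 = (n + 3 + n1) + 1 := by omega
    rw [h2, pow_succ]
    have := hpos (n + 3 + n1)
    nlinarith
  have h2 : δ ^ (n + 8 + 2 * n1) ≤ δ ^ (n + 4 + n1) := h72_pow_anti hδ0 hδ1 (by omega)
  linarith

end

end Pool.Agent.Helper67.NX2
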